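import Mathlib
import Pool.Agent.Helper433_LM.M
import Pool.Agent.Helper433_LM.N

set_option autoImplicit false

/-!
# Analytic matrix functions separating Liouville matrices
-/

namespace Pool.Agent.Results.MP_4d0c5f_nt.Separation

open Filter Topology

/-- A Liouville matrix: (a) `A q = p` has no integer solution other than `q = p = 0`; (b) for every
`N > 0` there are integer vectors `p, q` with `‖q‖ > 1` (so `‖q‖ ≥ 2`) and `‖A q - p‖ < ‖q‖ ^ (-N)`.
The norm of `Fin n → ℝ` is the sup norm. -/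
def IsLiouville {n : ℕ} (A : Matrix (Fin n) (Fin n) ℝ) : Prop :=
  (∀ q p : Fin n → ℤ, ¬ (q = 0 ∧ p = 0) → A.mulVec (fun i => (q i : ℝ)) ≠ fun i => (p i : ℝ)) ∧
  ∀ N : ℝ, 0 < N → ∃ p q : Fin n → ℤ, 1 < ‖(fun i => (q i : ℝ))‖ ∧
    ‖A.mulVec (fun i => (q i : ℝ)) - (fun i => (p i : ℝ))‖ < ‖(fun i => (q i : ℝ))‖ ^ (-N)

/-- The `j`-th Taylor coefficient of `f` at `0`. -/
noncomputable def coef (f : ℝ → ℝ) (j : ℕ) : ℝ := iteratedDeriv j f 0 / j.factorial

/-- `M` is the value at `A` of the matrix extension of `f`: the series `∑ c_j A ^ j` converges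
to `M`. -/
def MatrixExt {n : ℕ} (f : ℝ → ℝ) (A M : Matrix (Fin n) (Fin n) ℝ) : Prop :=
  Tendsto (fun N : ℕ => ∑ j ∈ Finset.range N, coef f j • A ^ j) atTop (𝓝 M)

/-- `f = τ ∘ g` on `I` for some `τ(z) = (a z + b) / (c z + d)` with `(c, d) ≠ (0, 0)`. -/
def CoincidesMoebius (f g : ℝ → ℝ) (I : Set ℝ) : Prop :=
  ∃ a b c d : ℝ, (c ≠ 0 ∨ d ≠ 0) ∧ ∀ z ∈ I, c * g z + d ≠ 0 ∧ f z = (a * g z + b) / (c * g z + d)

/-- The assumptions of the problem on `I`, `(f_k)`, `(g_k)`. -/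
structure Admissible (I : Set ℝ) (f g : ℕ → ℝ → ℝ) : Prop where
  isOpen : IsOpen I
  interval : I.OrdConnected
  zero_mem : (0 : ℝ) ∈ I
  f_analytic : ∀ k, AnalyticOnNhd ℝ (f k) I
  g_analytic : ∀ k, AnalyticOnNhd ℝ (g k) I
  cond_i : ∀ k, ¬ CoincidesMoebius (g k) (fun z => z) I
  cond_ii : ∀ k₁ k₂, ¬ CoincidesMoebius (f k₁) (g k₂) I

/-- There is a Liouville matrix `A` with all `f_k(A)` Liouville matrices and no `g_k(A)` a Liouville
matrix, all the extensions being defined at `A`. -/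
def Separates (n : ℕ) (f g : ℕ → ℝ → ℝ) : Prop :=
  ∃ A : Matrix (Fin n) (Fin n) ℝ, IsLiouville A ∧ ∀ k, ∃ M M' : Matrix (Fin n) (Fin n) ℝ,
    MatrixExt (f k) A M ∧ IsLiouville M ∧ MatrixExt (g k) A M' ∧ ¬ IsLiouville M'

/-- The Taylor series at `0` of all the `f_k` and `g_k` converge on a common interval. -/
def CommonRadius (f g : ℕ → ℝ → ℝ) : Prop :=
  ∃ ρ > 0, ∀ k, ∀ x : ℝ, |x| < ρ →
    Summable (fun j : ℕ => coef (f k) j * x ^ j) ∧ Summable fun j : ℕ => coef (g k) j * x ^ j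

theorem positive {n : ℕ} (hn : 2 ≤ n) {I : Set ℝ} {f g : ℕ → ℝ → ℝ} (h : Admissible I f g)
    (hr : CommonRadius f g) : Separates n f g := by
  obtain ⟨d, rfl⟩ : ∃ d, n = d + 2 := ⟨n - 2, by omega⟩
  obtain ⟨ρ, hρ, hs⟩ := hr
  have hc : IsPreconnected I := h.interval.isPreconnected
  obtain ⟨r, hr, hrI⟩ := Metric.isOpen_iff.1 h.isOpen 0 h.zero_mem
  have hgc : ∀ l, ∀ b : ℝ, ¬ ∀ x ∈ I, g l x = b := by
    intro l b hb
    apply h.cond_i l
    refine ⟨0, b, 0, 1, Or.inr one_ne_zero, fun z hz => ⟨by norm_num, ?_⟩⟩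
    rw [hb z hz]
    ring
  have hidc : ∀ b : ℝ, ¬ ∀ x ∈ I, (fun z : ℝ => z) x = b := by
    intro b hb
    have h1 := hb 0 h.zero_mem
    have h2 := hb (r / 2) (hrI (by
      rw [Metric.mem_ball, Real.dist_eq, sub_zero, abs_of_pos (by positivity)]
      linarith))
    simp only at h1 h2
    linarith
  obtain ⟨F, hF0, hF1⟩ : ∃ F : ℕ → ℝ → ℝ, F 0 = (fun z => z) ∧ ∀ k, F (k + 1) = f k :=
    ⟨fun k => Nat.casesOn k (fun z => z) f, rfl, fun _ => rfl⟩
  have hFan : ∀ k, AnalyticOnNhd ℝ (F k) I := by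
    intro k
    rcases k with _ | k
    · rw [hF0]
      exact fun x _ => analyticAt_id
    · rw [hF1]
      exact h.f_analytic k
  have hLI : ∀ k l, Helper433_LM.LI (F k) (g l) I := by
    intro k l
    rcases k with _ | k
    · rw [hF0]
      exact (Helper433_LM.LI_of hc (h.g_analytic l) (fun x _ => analyticAt_id) hidc
        (h.cond_i l)).symm
    · rw [hF1]
      exact Helper433_LM.LI_of hc (h.f_analytic k) (h.g_analytic l) (hgc l) (h.cond_ii k l)
  obtain ⟨α, y, z, hα, hαI, hyz, hG, hFne, hFapp⟩ :=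
    Helper433_LM.exists_triple h.isOpen hc h.zero_mem hFan h.g_analytic hLI hρ
  have hext : ∀ {φ : ℝ → ℝ}, AnalyticOnNhd ℝ φ I →
      (∀ x : ℝ, |x| < ρ → Summable fun j : ℕ => coef φ j * x ^ j) →
      MatrixExt φ (Helper433_LM.MM d y z α 0) (Helper433_LM.MM d y z (φ α) (φ 0)) := by
    intro φ hφ hφs
    exact (Helper433_LM.ext_hasSum hyz
      (Helper433_LM.taylor_sum h.isOpen hc h.zero_mem hφ hρ hφs hαI hα)
      (Helper433_LM.taylor_sum h.isOpen hc h.zero_mem hφ hρ hφs h.zero_mem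
        (by rw [abs_zero]; exact hρ))).tendsto_sum_nat
  have hL : ∀ k, IsLiouville (Helper433_LM.MM d y z (F k α) (F k 0)) := fun k =>
    ⟨Helper433_LM.cond_a hyz (hFne k), Helper433_LM.cond_b hyz (hFapp k)⟩
  refine ⟨Helper433_LM.MM d y z α 0, ?_, fun k => ⟨Helper433_LM.MM d y z (f k α) (f k 0),
    Helper433_LM.MM d y z (g k α) (g k 0), hext (h.f_analytic k) (fun x hx => (hs k x hx).1), ?_,
    hext (h.g_analytic k) (fun x hx => (hs k x hx).2),
    fun hcon => Helper433_LM.cond_not_b hyz (hG k) hcon.2⟩⟩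
  · have := hL 0
    rw [hF0] at this
    exact this
  · have := hL (k + 1)
    rw [hF1] at this
    exact this

/-- Finitely many functions always have a common radius. -/
theorem commonRadius_of_finite {I : Set ℝ} {f g : ℕ → ℝ → ℝ} (h : Admissible I f g)
    (hf : (Set.range f).Finite) (hg : (Set.range g).Finite) : CommonRadius f g := by
  have key : ∀ {u : ℕ → ℝ → ℝ}, (∀ k, AnalyticOnNhd ℝ (u k) I) → (Set.range u).Finite →
      ∃ ρ > 0, ∀ k, ∀ x : ℝ, |x| < ρ → Summable fun j : ℕ => coef (u k) j * x ^ j := by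
    intro u hu hfin
    have h1 : ∀ φ : ℝ → ℝ, ∃ ρ > 0, φ ∈ Set.range u → ∀ x : ℝ, |x| < ρ →
        Summable fun j : ℕ => coef φ j * x ^ j := by
      intro φ
      by_cases hφ : φ ∈ Set.range u
      · obtain ⟨k, rfl⟩ := hφ
        obtain ⟨ρ, hρ, h2⟩ := Helper433_LM.taylor_small (hu k 0 h.zero_mem)
        exact ⟨ρ, hρ, fun _ => h2⟩
      · exact ⟨1, one_pos, fun h => absurd h hφ⟩
    choose ρ hρ hs using h1
    obtain ⟨e, he, hle⟩ := Helper433_LM.exists_pos_le_finite hfin ρ (fun φ _ => hρ φ)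
    exact ⟨e, he, fun k x hx => hs (u k) ⟨k, rfl⟩ x (hx.trans_le (hle _ ⟨k, rfl⟩))⟩
  obtain ⟨ρ₁, h1, h2⟩ := key h.f_analytic hf
  obtain ⟨ρ₂, h3, h4⟩ := key h.g_analytic hg
  exact ⟨min ρ₁ ρ₂, lt_min h1 h3, fun k x hx => ⟨h2 k x (hx.trans_le (min_le_left _ _)),
    h4 k x (hx.trans_le (min_le_right _ _))⟩⟩

/-- Without a common radius the statement fails for `n = 2`: if the radii tend to `0` then `A ^ 2 = 0`
as soon as all the series converge at `A`. -/
theorem negative : ∃ f g : ℕ → ℝ → ℝ, Admissible Set.univ f g ∧ ¬ Separates 2 f g := by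
  refine ⟨fun _ z => z ^ 2, fun k => Helper433_LM.gg ((k : ℝ) + 1), ⟨isOpen_univ, Set.ordConnected_univ,
    Set.mem_univ _, fun k x _ => analyticAt_id.pow 2, fun k => Helper433_LM.gg_analytic _,
    fun k => Helper433_LM.gg_not_moebius_id (by positivity),
    fun k₁ k₂ => Helper433_LM.sq_not_moebius_gg (by positivity)⟩, ?_⟩
  rintro ⟨A, hA, h⟩
  have hsq : A ^ 2 = 0 := by
    apply Helper433_LM.sq_zero
    intro k
    obtain ⟨M, M', -, -, h3, -⟩ := h k
    exact Helper433_LM.pow_tendsto (by positivity) h3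
  obtain ⟨M, M', -, -, h3, h4⟩ := h 0
  have hM : M' = 1 + A := Helper433_LM.ext_sq_zero (by positivity) hsq h3
  apply h4
  rw [hM]
  have hmv : ∀ q : Fin 2 → ℤ, (1 + A).mulVec (fun i => (q i : ℝ)) =
      (fun i => (q i : ℝ)) + A.mulVec (fun i => (q i : ℝ)) := by
    intro q
    rw [Matrix.add_mulVec, Matrix.one_mulVec]
  refine ⟨fun q p hqp heq => ?_, fun N hN => ?_⟩
  · refine hA.1 q (p - q) (fun h0 => hqp ?_) ?_
    · obtain ⟨h1, h2⟩ := h0
      exact ⟨h1, by rw [h1, sub_zero] at h2; exact h2⟩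
    · rw [hmv] at heq
      ext i
      have := congrFun heq i
      simp only [Pi.add_apply] at this
      simp only [Pi.sub_apply]
      push_cast
      linarith
  · obtain ⟨p, q, h1, h2⟩ := hA.2 N hN
    refine ⟨p + q, q, h1, ?_⟩
    have : (1 + A).mulVec (fun i => (q i : ℝ)) - (fun i => (((p + q) i : ℤ) : ℝ)) =
        A.mulVec (fun i => (q i : ℝ)) - (fun i => (p i : ℝ)) := by
      rw [hmv]
      ext i
      simp only [Pi.sub_apply, Pi.add_apply]
      push_cast
      ring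
    rw [this]
    exact h2

/-- (1) If the Taylor series at `0` of all the functions converge on a common interval, a separating
Liouville matrix exists, for every `n ≥ 2`. (2) This is so if there are finitely many functions, in
particular for single functions `f_1`, `g_1`. (3) With no common interval of convergence, the
statement fails for `n = 2`. -/
theorem result :
    (∀ n : ℕ, 2 ≤ n → ∀ (I : Set ℝ) (f g : ℕ → ℝ → ℝ), Admissible I f g → CommonRadius f g →
      Separates n f g) ∧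
    (∀ n : ℕ, 2 ≤ n → ∀ (I : Set ℝ) (f g : ℕ → ℝ → ℝ), Admissible I f g → (Set.range f).Finite →
      (Set.range g).Finite → Separates n f g) ∧
    ∃ f g : ℕ → ℝ → ℝ, Admissible Set.univ f g ∧ ¬ Separates 2 f g :=
  ⟨fun _ hn _ _ _ h hr => positive hn h hr,
    fun _ hn _ _ _ h hf hg => positive hn h (commonRadius_of_finite h hf hg), negative⟩

end Pool.Agent.Results.MP_4d0c5f_nt.Separation
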